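import Mathlib
import Pool.Agent.CF24.Upper

/-!
# CF81/Blow: from a bound for few letters to a bound for all alphabets

`Bd m K`: a comma-free set of injective words of length 4 over `m` letters has at most `K` words.
-/

namespace Pool.Agent.CF81

open Pool.Agent.CF24 Finset

/-- Comma-free sets of words with four distinct letters over `m` letters have at most `K`
members. -/
def Bd (m K : ℕ) : Prop :=
  ∀ E : Finset (Fin 4 → Fin m), CommaFree E → (∀ w ∈ E, Function.Injective w) → E.card ≤ K

/-- Pulling back along an injective map of the letters. -/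
theorem commaFree_pull {m n : ℕ} (φ : Fin m → Fin n)
    (D : Finset (Fin 4 → Fin n)) (hD : CommaFree D) (E : Finset (Fin 4 → Fin m))
    (hE : ∀ w ∈ E, φ ∘ w ∈ D) : CommaFree E := by
  intro a ha b hb c hc i hi1 hi2 heq
  refine hD _ (hE a ha) _ (hE b hb) _ (hE c hc) i hi1 hi2 ?_
  have h := congrArg (List.map φ) heq
  rw [List.map_append, List.map_drop, List.map_take, List.map_ofFn, List.map_ofFn,
    List.map_ofFn] at h
  exact h

theorem coe_inj (m : ℕ) :
    Function.Injective (fun x : Fin 4 ↪ Fin m => (x : Fin 4 → Fin m)) :=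
  fun _ _ h => DFunLike.coe_injective h

/-- Double counting for the action of the permutations on the injective words. -/
theorem sum_indicator {n : ℕ} (D : Finset (Fin 4 ↪ Fin n)) (y : Fin 4 ↪ Fin n) :
    Fintype.card (Fin 4 ↪ Fin n) *
        (univ.filter fun σ : Equiv.Perm (Fin n) => σ • y ∈ D).card =
      Fintype.card (Equiv.Perm (Fin n)) * D.card := by
  classical
  have hconst : ∀ z : Fin 4 ↪ Fin n,
      (univ.filter fun σ : Equiv.Perm (Fin n) => σ • z ∈ D).card =
        (univ.filter fun σ : Equiv.Perm (Fin n) => σ • y ∈ D).card := by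
    intro z
    have htr := Equiv.Perm.isMultiplyPretransitive (Fin n) 4
    obtain ⟨τ, hτ⟩ := htr.exists_smul_eq y z
    refine Finset.card_bij (fun σ _ => σ * τ) ?_ ?_ ?_
    · intro σ hσ
      rw [mem_filter] at hσ ⊢
      refine ⟨mem_univ _, ?_⟩
      rw [mul_smul, hτ]
      exact hσ.2
    · intro σ _ σ' _ h
      exact mul_right_cancel h
    · intro σ hσ
      rw [mem_filter] at hσ
      refine ⟨σ * τ⁻¹, ?_, by simp⟩
      rw [mem_filter]
      refine ⟨mem_univ _, ?_⟩
      rw [← hτ, ← mul_smul]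
      simpa using hσ.2
  have h1 : ∑ z : Fin 4 ↪ Fin n, (univ.filter fun σ : Equiv.Perm (Fin n) => σ • z ∈ D).card =
      Fintype.card (Fin 4 ↪ Fin n) *
        (univ.filter fun σ : Equiv.Perm (Fin n) => σ • y ∈ D).card := by
    rw [Finset.sum_congr rfl (fun z _ => hconst z)]
    simp [Finset.card_univ]
  rw [← h1]
  have h2 : ∀ σ : Equiv.Perm (Fin n),
      (univ.filter fun z : Fin 4 ↪ Fin n => σ • z ∈ D).card = D.card := by
    intro σ
    refine Finset.card_bij (fun z _ => σ • z) ?_ ?_ ?_
    · intro z hz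
      exact (mem_filter.1 hz).2
    · intro z _ z' _ h
      exact smul_left_cancel σ h
    · intro x hx
      refine ⟨σ⁻¹ • x, ?_, by simp⟩
      rw [mem_filter]
      exact ⟨mem_univ _, by simpa using hx⟩
  have h3 : ∑ z : Fin 4 ↪ Fin n, (univ.filter fun σ : Equiv.Perm (Fin n) => σ • z ∈ D).card =
      ∑ σ : Equiv.Perm (Fin n), (univ.filter fun z : Fin 4 ↪ Fin n => σ • z ∈ D).card := by
    simp only [Finset.card_filter]
    exact Finset.sum_comm
  rw [h3, Finset.sum_congr rfl (fun σ _ => h2 σ)]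
  simp [Finset.card_univ]

theorem blow {m n K : ℕ} (hmn : m ≤ n) (hB : Bd m K) (D : Finset (Fin 4 → Fin n))
    (hD : CommaFree D) (hi : ∀ w ∈ D, Function.Injective w) :
    m.descFactorial 4 * D.card ≤ K * n.descFactorial 4 := by
  classical
  -- the code as a set of embeddings
  let D' : Finset (Fin 4 ↪ Fin n) := univ.filter fun x => (x : Fin 4 → Fin n) ∈ D
  have hcard : D'.card = D.card := by
    refine Finset.card_bij (fun x _ => (x : Fin 4 → Fin n)) ?_ ?_ ?_
    · intro x hx
      exact (mem_filter.1 hx).2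
    · intro x _ x' _ h
      exact DFunLike.coe_injective h
    · intro w hw
      exact ⟨⟨w, hi w hw⟩, mem_filter.2 ⟨mem_univ _, hw⟩, rfl⟩
  let ι : Fin m → Fin n := Fin.castLE hmn
  have hι : Function.Injective ι := Fin.castLE_injective hmn
  let lift : (Fin 4 ↪ Fin m) → (Fin 4 ↪ Fin n) := fun w => w.trans ⟨ι, hι⟩
  -- for each permutation
  have hσ : ∀ σ : Equiv.Perm (Fin n),
      (univ.filter fun w : Fin 4 ↪ Fin m => σ • lift w ∈ D').card ≤ K := by
    intro σ
    let E : Finset (Fin 4 → Fin m) :=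
      Finset.image (fun w : Fin 4 ↪ Fin m => (w : Fin 4 → Fin m))
        (univ.filter fun w : Fin 4 ↪ Fin m => σ • lift w ∈ D')
    have hE : E.card = (univ.filter fun w : Fin 4 ↪ Fin m => σ • lift w ∈ D').card :=
      Finset.card_image_of_injective _ (coe_inj m)
    rw [← hE]
    refine hB E ?_ ?_
    · refine commaFree_pull (fun x => σ (ι x)) D hD E ?_
      intro w hw
      obtain ⟨w', hw', rfl⟩ := Finset.mem_image.1 hw
      have := (mem_filter.1 (mem_filter.1 hw').2).2
      exact this
    · intro w hw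
      obtain ⟨w', _, rfl⟩ := Finset.mem_image.1 hw
      exact w'.injective
  have h1 : ∑ σ : Equiv.Perm (Fin n),
      (univ.filter fun w : Fin 4 ↪ Fin m => σ • lift w ∈ D').card ≤
      Fintype.card (Equiv.Perm (Fin n)) * K := by
    refine (Finset.sum_le_sum (fun σ _ => hσ σ)).trans ?_
    simp [Finset.card_univ]
  have h2 : ∑ σ : Equiv.Perm (Fin n),
      (univ.filter fun w : Fin 4 ↪ Fin m => σ • lift w ∈ D').card =
      ∑ w : Fin 4 ↪ Fin m, (univ.filter fun σ : Equiv.Perm (Fin n) => σ • lift w ∈ D').card := by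
    simp only [Finset.card_filter]
    exact Finset.sum_comm
  rw [h2] at h1
  have h3 : Fintype.card (Fin 4 ↪ Fin n) *
      ∑ w : Fin 4 ↪ Fin m, (univ.filter fun σ : Equiv.Perm (Fin n) => σ • lift w ∈ D').card =
      Fintype.card (Fin 4 ↪ Fin m) * (Fintype.card (Equiv.Perm (Fin n)) * D'.card) := by
    rw [Finset.mul_sum, Finset.sum_congr rfl (fun w _ => sum_indicator D' (lift w))]
    simp [Finset.card_univ]
  have h4' : Fintype.card (Fin 4 ↪ Fin m) * (Fintype.card (Equiv.Perm (Fin n)) * D'.card) ≤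
      Fintype.card (Fin 4 ↪ Fin n) * (Fintype.card (Equiv.Perm (Fin n)) * K) := by
    rw [← h3]
    exact Nat.mul_le_mul_left _ h1
  have hp : 0 < Fintype.card (Equiv.Perm (Fin n)) := Fintype.card_pos
  have e1 : Fintype.card (Fin 4 ↪ Fin m) = m.descFactorial 4 := by
    rw [Fintype.card_embedding_eq, Fintype.card_fin, Fintype.card_fin]
  have e2 : Fintype.card (Fin 4 ↪ Fin n) = n.descFactorial 4 := by
    rw [Fintype.card_embedding_eq, Fintype.card_fin, Fintype.card_fin]
  rw [e1, e2, hcard] at h4'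
  have h5 : Fintype.card (Equiv.Perm (Fin n)) * (m.descFactorial 4 * D.card) ≤
      Fintype.card (Equiv.Perm (Fin n)) * (K * n.descFactorial 4) := by
    calc Fintype.card (Equiv.Perm (Fin n)) * (m.descFactorial 4 * D.card)
        = m.descFactorial 4 * (Fintype.card (Equiv.Perm (Fin n)) * D.card) := by ring
      _ ≤ n.descFactorial 4 * (Fintype.card (Equiv.Perm (Fin n)) * K) := h4'
      _ = _ := by ring
  exact Nat.le_of_mul_le_mul_left h5 hp

/-- Injective words are few less than all words. -/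
theorem card_not_inj (n : ℕ) (D : Finset (Fin 4 → Fin n)) (hD : ∀ w ∈ D, ¬ Function.Injective w) :
    D.card + n.descFactorial 4 ≤ n ^ 4 := by
  classical
  have h1 : (univ.filter fun w : Fin 4 → Fin n => Function.Injective w).card =
      n.descFactorial 4 := by
    have : (univ.filter fun w : Fin 4 → Fin n => Function.Injective w) =
        Finset.map ⟨fun x : Fin 4 ↪ Fin n => (x : Fin 4 → Fin n), coe_inj n⟩
          (univ : Finset (Fin 4 ↪ Fin n)) := by
      ext w
      constructor
      · intro hw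
        exact Finset.mem_map.2 ⟨⟨w, (mem_filter.1 hw).2⟩, mem_univ _, rfl⟩
      · intro hw
        obtain ⟨x, _, rfl⟩ := Finset.mem_map.1 hw
        exact mem_filter.2 ⟨mem_univ _, x.injective⟩
    rw [this, Finset.card_map, Finset.card_univ, Fintype.card_embedding_eq, Fintype.card_fin,
      Fintype.card_fin]
  rw [← h1, ← Finset.card_union_of_disjoint]
  · refine (Finset.card_le_univ _).trans ?_
    simp
  · rw [Finset.disjoint_left]
    intro w hw hw'
    exact hD w hw (mem_filter.1 hw').2

theorem bd_step {m n K L : ℕ} (hmn : m ≤ n) (hB : Bd m K)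
    (hL : K * n.descFactorial 4 < m.descFactorial 4 * (L + 1)) : Bd n L := by
  intro E hE hi
  have h := blow hmn hB E hE hi
  by_contra hc
  have h1 : L + 1 ≤ E.card := by omega
  have h2 : m.descFactorial 4 * (L + 1) ≤ m.descFactorial 4 * E.card := Nat.mul_le_mul_left _ h1
  omega

/-- Repeated averaging with rounding. -/
theorem bd_17 (hB : Bd 6 88) : Bd 17 13930 := by
  have h7 : Bd 7 205 := bd_step (by norm_num) hB (by decide)
  have h8 : Bd 8 410 := bd_step (by norm_num) h7 (by decide)
  have h9 : Bd 9 738 := bd_step (by norm_num) h8 (by decide)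
  have h10 : Bd 10 1230 := bd_step (by norm_num) h9 (by decide)
  have h11 : Bd 11 1932 := bd_step (by norm_num) h10 (by decide)
  have h12 : Bd 12 2898 := bd_step (by norm_num) h11 (by decide)
  have h13 : Bd 13 4186 := bd_step (by norm_num) h12 (by decide)
  have h14 : Bd 14 5860 := bd_step (by norm_num) h13 (by decide)
  have h15 : Bd 15 7990 := bd_step (by norm_num) h14 (by decide)
  have h16 : Bd 16 10653 := bd_step (by norm_num) h15 (by decide)
  exact bd_step (by norm_num) h16 (by decide)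

theorem card_le_of_bd {n : ℕ} (hn : 17 ≤ n) (hB : Bd 6 88) (D : Finset (Fin 4 → Fin n))
    (hD : CommaFree D) : (D.card : ℝ) ≤ 199 / 816 * (n : ℝ) ^ 4 + 5 * (n : ℝ) ^ 3 := by
  classical
  let D1 := D.filter fun w => Function.Injective w
  let D2 := D.filter fun w => ¬ Function.Injective w
  have hc : D1.card + D2.card = D.card := Finset.card_filter_add_card_filter_not _
  have h1 : (17 : ℕ).descFactorial 4 * D1.card ≤ 13930 * n.descFactorial 4 := by
    refine blow hn (bd_17 hB) D1 ?_ (fun w hw => (mem_filter.1 hw).2)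
    intro a ha b hb c hc
    exact hD a (mem_filter.1 ha).1 b (mem_filter.1 hb).1 c (mem_filter.1 hc).1
  have h2 := card_not_inj n D2 (fun w hw => (mem_filter.1 hw).2)
  have e17 : (17 : ℕ).descFactorial 4 = 57120 := by decide
  rw [e17] at h1
  obtain ⟨k, rfl⟩ : ∃ k, n = k + 3 := ⟨n - 3, by omega⟩
  have en : (k + 3).descFactorial 4 = (k + 3) * (k + 2) * (k + 1) * k := by
    simp only [Nat.descFactorial_succ, Nat.descFactorial_zero]
    have e0 : k + 3 - 3 = k := by omega
    have e1 : k + 3 - 2 = k + 1 := by omega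
    have e2 : k + 3 - 1 = k + 2 := by omega
    rw [e0, e1, e2, Nat.sub_zero]
    ring
  rw [en] at h1 h2
  have h1' : (57120 : ℝ) * D1.card ≤ 13930 * ((k + 3) * (k + 2) * (k + 1) * k) := by
    exact_mod_cast h1
  have h2' : (D2.card : ℝ) + (k + 3) * (k + 2) * (k + 1) * k ≤ ((k : ℝ) + 3) ^ 4 := by
    exact_mod_cast h2
  have hc' : (D1.card : ℝ) + D2.card = D.card := by exact_mod_cast hc
  push_cast
  have hk : (0 : ℝ) ≤ k := Nat.cast_nonneg k
  nlinarith [mul_nonneg hk hk, mul_nonneg (mul_nonneg hk hk) hk]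

theorem W_le_of_bd (hB : Bd 6 88) (n : ℕ) :
    (W 4 n : ℝ) ≤ 199 / 816 * (n : ℝ) ^ 4 + 5 * (n : ℝ) ^ 3 := by
  have hne : {m : ℕ | ∃ D : Finset (Fin 4 → Fin n), CommaFree D ∧ D.card = m}.Nonempty :=
    ⟨0, ∅, fun a ha => absurd ha (Finset.notMem_empty a), rfl⟩
  have hbdd : BddAbove {m : ℕ | ∃ D : Finset (Fin 4 → Fin n), CommaFree D ∧ D.card = m} := by
    refine ⟨Fintype.card (Fin 4 → Fin n), ?_⟩
    rintro m ⟨D, _, rfl⟩
    exact Finset.card_le_univ D
  obtain ⟨D, hD, hc⟩ := Nat.sSup_mem hne hbdd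
  have key : (D.card : ℝ) ≤ 199 / 816 * (n : ℝ) ^ 4 + 5 * (n : ℝ) ^ 3 := by
    rcases Nat.lt_or_ge n 17 with hn | hn
    · have h1 := upper_card (h := 2) (by norm_num) D hD
      have h2 : (n : ℝ) ≤ 16 := by exact_mod_cast Nat.le_of_lt_succ hn
      have h0 : (0 : ℝ) ≤ n := Nat.cast_nonneg n
      have h3 : (0 : ℝ) ≤ (n : ℝ) ^ 3 := by positivity
      have h4 : (n : ℝ) ^ 4 ≤ 16 * (n : ℝ) ^ 3 := by nlinarith
      have h5 : (0 : ℝ) ≤ (n : ℝ) ^ 4 := by positivity
      norm_num at h1
      nlinarith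
    · exact card_le_of_bd hn hB D hD
  rw [hc] at key
  exact key

end Pool.Agent.CF81
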