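import Pool.Agent.CF81.I
import Pool.Agent.CF81.H0
import Pool.Agent.CF81.H1
import Pool.Agent.CF81.H2
import Pool.Agent.CF81.H3
import Pool.Agent.CF81.H4
import Pool.Agent.CF81.H5

/-!
# CF81/Fin: data for six letters
-/

set_option autoImplicit false
set_option maxRecDepth 100000

namespace Pool.Agent.CF81.Dat

theorem no_sys (S : ℕ → Prop) : ¬ Sys S :=
  no_sys_of_learn (vt := v) (t := t) (m := 3078) (k := 19217) inp
    (((((((((((lrn0.trans lrn1).trans lrn2).trans lrn3).trans lrn4).trans lrn5).trans lrn6).trans lrn7).trans lrn8).trans lrn9).trans lrn10).trans lrn11) (by decide +kernel) S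

end Pool.Agent.CF81.Dat
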