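import Pool.Agent.CF81.Six
import Pool.Agent.WS.Input

/-!
# CF81/Sat: clauses for the system of a comma-free set

Variables: `n < 1296` says that the word `n` is a member, `1296 + p`, `1512 + p`, `1548 + p` that
`p` is the start (of length 3, 2, 1) of a member, `1554 + p`, `1770 + p`, `1806 + p` that `p` is
the end (of length 3, 2, 1) of a member. Descriptors `d` (`n = d / 16`), types `d % 16`:
* 1 to 3: starts of members; 4 to 6: ends of members;
* 7 to 9: the comma-free conditions;
* 10: a rotation of `n` is a member;
* other: the word `121` is a member.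
-/

set_option autoImplicit false

namespace Pool.Agent.CF81

open Pool.Agent.WS

/-- The variables of a word. -/
def vars (n : ℕ) : List ℕ :=
  [n, 1296 + n / 6, 1512 + n / 36, 1548 + n / 216, 1554 + n % 216, 1770 + n % 36, 1806 + n % 6]

/-- The truth values of the variables. -/
def VV (S : ℕ → Prop) (v : ℕ) : Prop := ∃ n, S n ∧ v ∈ vars n

/-- The clause of a descriptor (`none` if the descriptor is not valid). -/
def clause (d : ℕ) : Option (List ℕ) :=
  let n := d / 16
  if n < 1296 then
    match d % 16 with
    | 1 => some [2 * n + 1, 2 * (1296 + n / 6)]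
    | 2 => some [2 * n + 1, 2 * (1512 + n / 36)]
    | 3 => some [2 * n + 1, 2 * (1548 + n / 216)]
    | 4 => some [2 * n + 1, 2 * (1554 + n % 216)]
    | 5 => some [2 * n + 1, 2 * (1770 + n % 36)]
    | 6 => some [2 * n + 1, 2 * (1806 + n % 6)]
    | 7 => some [2 * n + 1, 2 * (1554 + n / 6) + 1, 2 * (1548 + n % 6) + 1]
    | 8 => some [2 * n + 1, 2 * (1770 + n / 36) + 1, 2 * (1512 + n % 36) + 1]
    | 9 => some [2 * n + 1, 2 * (1806 + n / 216) + 1, 2 * (1296 + n % 216) + 1]
    | 10 => if ok n = true then
        some [2 * n, 2 * (n % 216 * 6 + n / 216), 2 * (n % 36 * 36 + n / 36),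
          2 * (n % 6 * 216 + n / 6)] else none
    | _ => some [2 * 121]
  else none

theorem tt_even {V : ℕ → Prop} (v : ℕ) : TT V (2 * v) ↔ V v := by
  unfold TT
  rw [if_pos (by omega)]
  have : 2 * v / 2 = v := by omega
  rw [this]

theorem tt_odd {V : ℕ → Prop} (v : ℕ) : TT V (2 * v + 1) ↔ ¬ V v := by
  unfold TT
  rw [if_neg (by omega)]
  have : (2 * v + 1) / 2 = v := by omega
  rw [this]

theorem vv_word {S : ℕ → Prop} {n : ℕ} (hn : n < 1296) (h : VV S n) : S n := by
  obtain ⟨m, hm, h⟩ := h
  simp only [vars, List.mem_cons, List.not_mem_nil, or_false] at h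
  have : n = m := by omega
  rw [this]
  exact hm

theorem vv_mem {S : ℕ → Prop} {n v : ℕ} (h : S n) (hv : v ∈ vars n) : VV S v := ⟨n, h, hv⟩

theorem two_or {S : ℕ → Prop} {n v : ℕ} (hn : n < 1296) (hv : v ∈ vars n) :
    ∃ l ∈ [2 * n + 1, 2 * v], TT (VV S) l := by
  by_cases h : VV S n
  · exact ⟨2 * v, by simp, (tt_even v).2 (vv_mem (vv_word hn h) hv)⟩
  · exact ⟨2 * n + 1, by simp, (tt_odd n).2 h⟩

theorem three_or {S : ℕ → Prop} {n u v : ℕ} (hn : n < 1296)
    (h : S n → ∀ a b, S a → S b → u ∈ vars a → v ∈ vars b → False) :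
    ∃ l ∈ [2 * n + 1, 2 * u + 1, 2 * v + 1], TT (VV S) l := by
  by_cases h0 : VV S n
  · by_cases h1 : VV S u
    · by_cases h2 : VV S v
      · exfalso
        obtain ⟨a, ha, ha'⟩ := h1
        obtain ⟨b, hb, hb'⟩ := h2
        exact h (vv_word hn h0) a b ha hb ha' hb'
      · exact ⟨2 * v + 1, by simp, (tt_odd v).2 h2⟩
    · exact ⟨2 * u + 1, by simp, (tt_odd u).2 h1⟩
  · exact ⟨2 * n + 1, by simp, (tt_odd n).2 h0⟩

theorem clause_sound {S : ℕ → Prop} (hS : Sys S) (d : ℕ) (c : List ℕ) (hc : clause d = some c) :
    ∃ l ∈ c, TT (VV S) l := by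
  unfold clause at hc
  simp only at hc
  generalize d / 16 = n at hc
  by_cases hn : n < 1296
  · rw [if_pos hn] at hc
    split at hc
    · rw [← Option.some.inj hc]
      exact two_or hn (by simp [vars])
    · rw [← Option.some.inj hc]
      exact two_or hn (by simp [vars])
    · rw [← Option.some.inj hc]
      exact two_or hn (by simp [vars])
    · rw [← Option.some.inj hc]
      exact two_or hn (by simp [vars])
    · rw [← Option.some.inj hc]
      exact two_or hn (by simp [vars])
    · rw [← Option.some.inj hc]
      exact two_or hn (by simp [vars])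
    · rw [← Option.some.inj hc]
      refine three_or hn ?_
      intro hs a b ha hb hu hv
      have la := hS.lt a ha
      have lb := hS.lt b hb
      simp only [vars, List.mem_cons, List.not_mem_nil, or_false] at hu hv
      have e1 : n / 6 = a % 216 := by omega
      have e2 : n % 6 = b / 216 := by omega
      refine hS.c1 a b ha hb ?_
      have : a % 216 * 6 + b / 216 = n := by omega
      rw [this]
      exact hs
    · rw [← Option.some.inj hc]
      refine three_or hn ?_
      intro hs a b ha hb hu hv
      have la := hS.lt a ha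
      have lb := hS.lt b hb
      simp only [vars, List.mem_cons, List.not_mem_nil, or_false] at hu hv
      have e1 : n / 36 = a % 36 := by omega
      have e2 : n % 36 = b / 36 := by omega
      refine hS.c2 a b ha hb ?_
      have : a % 36 * 36 + b / 36 = n := by omega
      rw [this]
      exact hs
    · rw [← Option.some.inj hc]
      refine three_or hn ?_
      intro hs a b ha hb hu hv
      have la := hS.lt a ha
      have lb := hS.lt b hb
      simp only [vars, List.mem_cons, List.not_mem_nil, or_false] at hu hv
      have e1 : n / 216 = a % 6 := by omega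
      have e2 : n % 216 = b / 6 := by omega
      refine hS.c3 a b ha hb ?_
      have : a % 6 * 216 + b / 6 = n := by omega
      rw [this]
      exact hs
    · by_cases ho : ok n = true
      · rw [if_pos ho] at hc
        rw [← Option.some.inj hc]
        rcases hS.rep n ho with h | h | h | h
        · exact ⟨2 * n, by simp, (tt_even n).2 (vv_mem h (by simp [vars]))⟩
        · exact ⟨2 * (n % 216 * 6 + n / 216), by simp,
            (tt_even _).2 (vv_mem h (by simp [vars]))⟩
        · exact ⟨2 * (n % 36 * 36 + n / 36), by simp,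
            (tt_even _).2 (vv_mem h (by simp [vars]))⟩
        · exact ⟨2 * (n % 6 * 216 + n / 6), by simp,
            (tt_even _).2 (vv_mem h (by simp [vars]))⟩
      · rw [if_neg ho] at hc
        exact absurd hc (by simp)
    · rw [← Option.some.inj hc]
      exact ⟨2 * 121, by simp, (tt_even 121).2 (vv_mem hS.un (by simp [vars]))⟩
  · rw [if_neg hn] at hc
    exact absurd hc (by simp)

/-- All clauses of descriptors hold. -/
def Sound (V : ℕ → Prop) : Prop := ∀ d c, clause d = some c → ∃ l ∈ c, TT V l

/-- Check the input clauses. -/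
noncomputable def checkInp (vt t : WS.Tree) : List ℕ → ℕ → Bool
  | [], _ => true
  | d :: ds, j =>
    match clause d with
    | some c => Nat.ble c.length 64 && (matchC vt c (t.get j) && checkInp vt t ds (j + 1))
    | none => false

/-- The input clauses with numbers from `j` to `k - 1` hold. -/
def Inp (vt t : WS.Tree) (j k : ℕ) : Prop :=
  ∀ V : ℕ → Prop, Sound V → ∀ i, j ≤ i → i < k →
    Holds (Val (TT fun v => V (vt.get v))) 64 (t.get i)

/-- The clauses with numbers less than `k` follow from those with numbers less than `m`. -/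
def Learn (t : WS.Tree) (m k : ℕ) : Prop :=
  ∀ T : ℕ → Prop, (∀ l, T (l ^^^ 1) ↔ ¬ T l) → (∀ j < m, Holds (Val T) 64 (t.get j)) →
    ∀ j < k, Holds (Val T) 64 (t.get j)

theorem learn_of_check {t : WS.Tree} {m l k : ℕ} {hs : List ℕ} (hc : checkAll t hs m = true)
    (hl : hs.length = l) (hk : m + l = k) : Learn t m k := by
  intro T hT ht
  rw [← hk, ← hl]
  exact learned hT hc ht

theorem Learn.trans {t : WS.Tree} {a b c : ℕ} (h1 : Learn t a b) (h2 : Learn t b c) :
    Learn t a c := fun T hT ht => h2 T hT (h1 T hT ht)

theorem Inp.trans {vt t : WS.Tree} {a b c : ℕ} (h1 : Inp vt t a b)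
    (h2 : Inp vt t b c) : Inp vt t a c := by
  intro V hV i hi hi'
  rcases Nat.lt_or_ge i b with h | h
  · exact h1 V hV i hi h
  · exact h2 V hV i h hi'

theorem inp_of_check {vt t : WS.Tree} {ds : List ℕ} {l : ℕ} :
    ∀ {j k : ℕ}, checkInp vt t ds j = true → ds.length = l → j + l = k → Inp vt t j k := by
  intro j k h hl hk V hV
  rw [← hk, ← hl]
  clear hk hl
  induction ds generalizing j with
  | nil =>
    intro i h1 h2
    simp only [List.length_nil] at h2
    omega
  | cons d ds ih =>
    intro i h1 h2
    unfold checkInp at h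
    rcases hc : clause d with _ | c
    · rw [hc] at h
      exact absurd h (by simp)
    · rw [hc] at h
      rw [Bool.and_eq_true, Bool.and_eq_true] at h
      obtain ⟨h0, h3, h4⟩ := h
      rcases eq_or_lt_of_le h1 with h5 | h5
      · rw [← h5]
        exact matchC_sound 64 c _ (Nat.le_of_ble_eq_true h0) h3 (hV d c hc)
      · refine ih h4 i (by omega) ?_
        simp only [List.length_cons] at h2
        omega

theorem no_sys_of_learn {vt t : WS.Tree} {m k : ℕ} (h1 : Inp vt t 0 m)
    (h2 : Learn t m (k + 1)) (h3 : t.get k = 0) (S : ℕ → Prop) : ¬ Sys S := by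
  intro hS
  have h4 := h2 _ (fun l => tt_xor l)
    (fun j hj => h1 _ (clause_sound hS) j (Nat.zero_le _) hj) k (Nat.lt_succ_self _)
  rw [h3] at h4
  exact not_holds_zero h4

end Pool.Agent.CF81
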