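import Pool.Agent.CF24.Upper
import Pool.Agent.CF81.Blow

/-!
# CF81/Six: comma-free sets of words with four distinct letters, six letters

A word is stored as a number below `1296` (four digits in base 6). A comma-free set with at least
`89` members gives (after a permutation of the letters) a system `Sys` of numbers: it contains
`121` (the word `0321`) and a rotation of every word with distinct letters which is not a rotation
of `0123`.
-/

namespace Pool.Agent.CF81

open Pool.Agent.CF24 Finset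

/-- The number of a word. -/
def code (w : Fin 4 → Fin 6) : ℕ :=
  216 * (w 0 : ℕ) + 36 * (w 1 : ℕ) + 6 * (w 2 : ℕ) + (w 3 : ℕ)

/-- The word of a number. -/
def dec (n : ℕ) : Fin 4 → Fin 6 :=
  ![⟨n / 216 % 6, Nat.mod_lt _ (by norm_num)⟩, ⟨n / 36 % 6, Nat.mod_lt _ (by norm_num)⟩,
    ⟨n / 6 % 6, Nat.mod_lt _ (by norm_num)⟩, ⟨n % 6, Nat.mod_lt _ (by norm_num)⟩]

/-- The numbers of words with distinct letters which are not rotations of `0123`. -/
def ok (n : ℕ) : Bool :=
  decide (n < 1296 ∧ n / 216 % 6 ≠ n / 36 % 6 ∧ n / 216 % 6 ≠ n / 6 % 6 ∧ n / 216 % 6 ≠ n % 6 ∧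
    n / 36 % 6 ≠ n / 6 % 6 ∧ n / 36 % 6 ≠ n % 6 ∧ n / 6 % 6 ≠ n % 6 ∧
    n ≠ 51 ∧ n ≠ 306 ∧ n ≠ 541 ∧ n ≠ 656)

/-- The number system of a large comma-free set. -/
structure Sys (S : ℕ → Prop) : Prop where
  lt : ∀ n, S n → n < 1296
  c1 : ∀ a b, S a → S b → ¬ S (a % 216 * 6 + b / 216)
  c2 : ∀ a b, S a → S b → ¬ S (a % 36 * 36 + b / 36)
  c3 : ∀ a b, S a → S b → ¬ S (a % 6 * 216 + b / 6)
  rep : ∀ n, ok n = true →
    S n ∨ S (n % 216 * 6 + n / 216) ∨ S (n % 36 * 36 + n / 36) ∨ S (n % 6 * 216 + n / 6)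
  un : S 121

/-- The reversed word. -/
def rev (v : Fin 4 → Fin 6) : Fin 4 → Fin 6 := fun j => v (-j)

theorem rev_rot (i : Fin 4) (v : Fin 4 → Fin 6) : rev (rot i v) = rot (-i) (rev v) := by
  funext j
  simp only [rev, rot]
  congr 1
  abel

theorem rev_rev (v : Fin 4 → Fin 6) : rev (rev v) = v := by
  funext j
  simp [rev]

theorem rev_inj {v : Fin 4 → Fin 6} (hv : Function.Injective v) : Function.Injective (rev v) :=
  fun _ _ h => neg_injective (hv h)

theorem rot_inj {v : Fin 4 → Fin 6} (hv : Function.Injective v) (i : Fin 4) :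
    Function.Injective (rot i v) := fun _ _ h => add_left_injective i (hv h)

theorem rev_ne {v : Fin 4 → Fin 6} (hv : Function.Injective v) (i : Fin 4) :
    rev v ≠ rot i v := by
  intro h
  have h0 : -0 = 0 + i := hv (congrFun h 0)
  have h1 : -1 = 1 + i := hv (congrFun h 1)
  clear h hv
  revert h0 h1
  revert i
  decide

theorem rot_zero (w : Fin 4 → Fin 6) : rot 0 w = w := by
  funext j
  simp [rot]

/-- A large comma-free set misses at most one class. -/
theorem missing_class (E : Finset (Fin 4 → Fin 6)) (hE : CommaFree E)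
    (hi : ∀ w ∈ E, Function.Injective w) (hc : 89 ≤ E.card) :
    ∃ u : Fin 4 → Fin 6, Function.Injective u ∧ ∀ w : Fin 4 → Fin 6, Function.Injective w →
      (∀ i, w ≠ rot i u) → ∃ i, rot i w ∈ E := by
  classical
  let U : Finset (Fin 4 → Fin 6) := univ.filter fun w => Function.Injective w
  let M : Finset (Fin 4 → Fin 6) := U.filter fun w => ∀ i, rot i w ∉ E
  let R : Finset (Fin 4 → Fin 6) := (univ : Finset (Fin 4)).biUnion fun i => E.image (rot i)
  have hrinj : ∀ i : Fin 4, Function.Injective (rot i : (Fin 4 → Fin 6) → (Fin 4 → Fin 6)) := by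
    intro i a b hab
    have := congrArg (rot (-i)) hab
    rwa [rot_rot, rot_rot, neg_add_cancel, rot_zero, rot_zero] at this
  have hR : R.card = 4 * E.card := by
    rw [Finset.card_biUnion]
    · rw [Finset.sum_congr rfl (fun i _ => Finset.card_image_of_injective E (hrinj i))]
      simp
    · intro i _ j _ hij
      refine Finset.disjoint_left.2 ?_
      intro w hw hw'
      obtain ⟨a, ha, rfl⟩ := Finset.mem_image.1 hw
      obtain ⟨b, hb, hab⟩ := Finset.mem_image.1 hw'
      apply hij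
      have h1 : rot (-i) (rot i a) ∈ E := by
        rwa [rot_rot, neg_add_cancel, rot_zero]
      have h2 : rot (-j) (rot i a) ∈ E := by
        rwa [← hab, rot_rot, neg_add_cancel, rot_zero]
      exact neg_injective (rot_unique E hE (rot i a) (-i) (-j) h1 h2)
  have hdis : Disjoint M R := by
    rw [Finset.disjoint_left]
    intro w hw hw'
    obtain ⟨i, _, hw'⟩ := Finset.mem_biUnion.1 hw'
    obtain ⟨a, ha, rfl⟩ := Finset.mem_image.1 hw'
    refine (mem_filter.1 hw).2 (-i) ?_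
    rwa [rot_rot, neg_add_cancel, rot_zero]
  have hsub : M ∪ R ⊆ U := by
    intro w hw
    rcases Finset.mem_union.1 hw with hw | hw
    · exact (mem_filter.1 hw).1
    · obtain ⟨i, _, hw⟩ := Finset.mem_biUnion.1 hw
      obtain ⟨a, ha, rfl⟩ := Finset.mem_image.1 hw
      exact mem_filter.2 ⟨mem_univ _, rot_inj (hi a ha) i⟩
  have hU : U.card = 360 := by
    have : U = Finset.map ⟨fun x : Fin 4 ↪ Fin 6 => (x : Fin 4 → Fin 6), coe_inj 6⟩
        (univ : Finset (Fin 4 ↪ Fin 6)) := by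
      ext w
      constructor
      · intro hw
        exact Finset.mem_map.2 ⟨⟨w, (mem_filter.1 hw).2⟩, mem_univ _, rfl⟩
      · intro hw
        obtain ⟨x, _, rfl⟩ := Finset.mem_map.1 hw
        exact mem_filter.2 ⟨mem_univ _, x.injective⟩
    rw [this, Finset.card_map, Finset.card_univ, Fintype.card_embedding_eq, Fintype.card_fin,
      Fintype.card_fin]
    rfl
  have hM : M.card ≤ 4 := by
    have h1 := Finset.card_le_card hsub
    rw [Finset.card_union_of_disjoint hdis, hR, hU] at h1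
    omega
  by_cases hne : M.Nonempty
  · obtain ⟨u, hu⟩ := hne
    have hui : Function.Injective u := (mem_filter.1 (mem_filter.1 hu).1).2
    have hrot : (univ : Finset (Fin 4)).image (fun i => rot i u) ⊆ M := by
      intro w hw
      obtain ⟨i, _, rfl⟩ := Finset.mem_image.1 hw
      refine mem_filter.2 ⟨mem_filter.2 ⟨mem_univ _, rot_inj hui i⟩, ?_⟩
      intro j
      rw [rot_rot]
      exact (mem_filter.1 hu).2 _
    have hrc : ((univ : Finset (Fin 4)).image (fun i => rot i u)).card = 4 := by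
      rw [Finset.card_image_of_injective]
      · simp
      · intro i j hij
        have h1 := hui (congrFun hij 0)
        simpa using h1
    have heq := Finset.eq_of_subset_of_card_le hrot (by rw [hrc]; exact hM)
    refine ⟨u, hui, fun w hw hwu => ?_⟩
    by_contra hcon
    have hwM : w ∈ M := by
      refine mem_filter.2 ⟨mem_filter.2 ⟨mem_univ _, hw⟩, ?_⟩
      intro i hi'
      exact hcon ⟨i, hi'⟩
    rw [← heq] at hwM
    obtain ⟨i, _, hi'⟩ := Finset.mem_image.1 hwM
    exact hwu i hi'.symm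
  · refine ⟨![0, 1, 2, 3], by decide, fun w hw _ => ?_⟩
    by_contra hcon
    apply hne
    refine ⟨w, mem_filter.2 ⟨mem_filter.2 ⟨mem_univ _, hw⟩, ?_⟩⟩
    intro i hi'
    exact hcon ⟨i, hi'⟩

/-- There is a member `v` such that only rotations of the reversed word are not represented. -/
theorem missing_rev (E : Finset (Fin 4 → Fin 6)) (hE : CommaFree E)
    (hi : ∀ w ∈ E, Function.Injective w) (hc : 89 ≤ E.card) :
    ∃ v ∈ E, ∀ w : Fin 4 → Fin 6, Function.Injective w →
      (∀ i, w ≠ rot i (rev v)) → ∃ i, rot i w ∈ E := by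
  obtain ⟨u, hu, h⟩ := missing_class E hE hi hc
  obtain ⟨i, hiE⟩ := h (rev u) (rev_inj hu) (fun i => rev_ne hu i)
  refine ⟨rot i (rev u), hiE, fun w hw hwi => h w hw fun j hj => ?_⟩
  apply hwi (j + i)
  rw [rev_rot, rev_rev, rot_rot, hj]
  congr 1
  abel

theorem code_lt (w : Fin 4 → Fin 6) : code w < 1296 := by
  unfold code
  omega

theorem code_dec {n : ℕ} (h : n < 1296) : code (dec n) = n := by
  simp only [code, dec, Matrix.cons_val_zero, Matrix.cons_val_one, Matrix.cons_val]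
  omega

theorem dec_inj {n : ℕ} (h : ok n = true) : Function.Injective (dec n) := by
  rw [ok, decide_eq_true_eq] at h
  obtain ⟨h0, h1, h2, h3, h4, h5, h6, -⟩ := h
  intro i j hij
  have hij' := congrArg Fin.val hij
  fin_cases i <;> fin_cases j <;> simp_all [dec, eq_comm]

theorem dec_ne {n : ℕ} (h : ok n = true) (i : Fin 4) : dec n ≠ rot i ![0, 1, 2, 3] := by
  rw [ok, decide_eq_true_eq] at h
  obtain ⟨h0, -, -, -, -, -, -, h1, h2, h3, h4⟩ := h
  intro he
  have h5 := congrArg code he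
  rw [code_dec h0] at h5
  fin_cases i
  · exact h1 h5
  · exact h2 h5
  · exact h3 h5
  · exact h4 h5

theorem rev_word : ∀ k : Fin 4, (![0, 3, 2, 1] : Fin 4 → Fin 6) (-k) =
    (![0, 1, 2, 3] : Fin 4 → Fin 6) k := by
  decide

theorem code_rot_dec {n : ℕ} (h : n < 1296) (i : Fin 4) :
    code (rot i (dec n)) = n ∨ code (rot i (dec n)) = n % 216 * 6 + n / 216 ∨
      code (rot i (dec n)) = n % 36 * 36 + n / 36 ∨
      code (rot i (dec n)) = n % 6 * 216 + n / 6 := by
  have e0 : code (rot 0 (dec n)) = 216 * (n / 216 % 6) + 36 * (n / 36 % 6) + 6 * (n / 6 % 6) +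
    n % 6 := rfl
  have e1 : code (rot 1 (dec n)) = 216 * (n / 36 % 6) + 36 * (n / 6 % 6) + 6 * (n % 6) +
    n / 216 % 6 := rfl
  have e2 : code (rot 2 (dec n)) = 216 * (n / 6 % 6) + 36 * (n % 6) + 6 * (n / 216 % 6) +
    n / 36 % 6 := rfl
  have e3 : code (rot 3 (dec n)) = 216 * (n % 6) + 36 * (n / 216 % 6) + 6 * (n / 36 % 6) +
    n / 6 % 6 := rfl
  obtain ⟨a, ha⟩ : ∃ a, a = n / 216 := ⟨_, rfl⟩
  obtain ⟨b, hb⟩ : ∃ b, b = n / 36 % 6 := ⟨_, rfl⟩
  obtain ⟨c, hc⟩ : ∃ c, c = n / 6 % 6 := ⟨_, rfl⟩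
  obtain ⟨d, hd⟩ : ∃ d, d = n % 6 := ⟨_, rfl⟩
  have q1 : n / 6 / 6 = n / 36 := Nat.div_div_eq_div_mul n 6 6
  have q2 : n / 36 / 6 = n / 216 := Nat.div_div_eq_div_mul n 36 6
  have hn : n = 216 * a + 36 * b + 6 * c + d := by omega
  have ha6 : a < 6 := by omega
  have hb6 : b < 6 := by omega
  have hc6 : c < 6 := by omega
  have hd6 : d < 6 := by omega
  have a1 : n / 216 % 6 = a := by omega
  rw [a1, ← hb, ← hc, ← hd] at e0 e1 e2 e3
  have a2 : n % 216 = 36 * b + 6 * c + d := by omega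
  have a3 : n % 36 = 6 * c + d := by omega
  have a4 : n / 36 = 6 * a + b := by omega
  have a5 : n / 6 = 36 * a + 6 * b + c := by omega
  rw [a2, a3, a4, a5, ← ha, ← hd, hn]
  rw [hn] at e0 e1 e2 e3
  clear hn ha hb hc hd a1 a2 a3 a4 a5 q1 q2 h
  fin_cases i
  · left
    change code (rot 0 (dec _)) = _
    omega
  · right; left
    change code (rot 1 (dec _)) = _
    omega
  · right; right; left
    change code (rot 2 (dec _)) = _
    omega
  · right; right; right
    change code (rot 3 (dec _)) = _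
    omega

theorem exists_perm (v : Fin 4 → Fin 6) (hv : Function.Injective v) :
    ∃ σ : Equiv.Perm (Fin 6), ∀ i, σ (v i) = (![0, 3, 2, 1] : Fin 4 → Fin 6) i := by
  have htr := Equiv.Perm.isMultiplyPretransitive (Fin 6) 4
  obtain ⟨τ, hτ⟩ := htr.exists_smul_eq (⟨v, hv⟩ : Fin 4 ↪ Fin 6)
    (⟨![0, 3, 2, 1], by decide⟩ : Fin 4 ↪ Fin 6)
  refine ⟨τ, fun i => ?_⟩
  have := congrArg (fun x : Fin 4 ↪ Fin 6 => x i) hτ
  exact this

theorem sys_of (E : Finset (Fin 4 → Fin 6)) (hE : CommaFree E)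
    (hi : ∀ w ∈ E, Function.Injective w) (hc : 89 ≤ E.card) : ∃ S : ℕ → Prop, Sys S := by
  obtain ⟨v, hv, h⟩ := missing_rev E hE hi hc
  obtain ⟨σ, hσ⟩ := exists_perm v (hi v hv)
  have k1 : ∀ a ∈ E, ∀ b ∈ E, ∀ c ∈ E, c 0 = a 1 → c 1 = a 2 → c 2 = a 3 → c 3 = b 0 → False := by
    intro a ha b hb c hc h0 h1 h2 h3
    refine hE a ha b hb c hc 1 (by norm_num) (by norm_num) ?_
    simp [List.ofFn_succ, h0, h1, h2, h3]
  have k2 : ∀ a ∈ E, ∀ b ∈ E, ∀ c ∈ E, c 0 = a 2 → c 1 = a 3 → c 2 = b 0 → c 3 = b 1 → False := by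
    intro a ha b hb c hc h0 h1 h2 h3
    refine hE a ha b hb c hc 2 (by norm_num) (by norm_num) ?_
    simp [List.ofFn_succ, h0, h1, h2, h3]
  have k3 : ∀ a ∈ E, ∀ b ∈ E, ∀ c ∈ E, c 0 = a 3 → c 1 = b 0 → c 2 = b 1 → c 3 = b 2 → False := by
    intro a ha b hb c hc h0 h1 h2 h3
    refine hE a ha b hb c hc 3 (by norm_num) (by norm_num) ?_
    simp [List.ofFn_succ, h0, h1, h2, h3]
  refine ⟨fun n => ∃ w ∈ E, code (fun i => σ (w i)) = n, ?_, ?_, ?_, ?_, ?_, ?_⟩
  · rintro n ⟨w, _, rfl⟩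
    exact code_lt _
  · rintro _ _ ⟨a, ha, rfl⟩ ⟨b, hb, rfl⟩ ⟨c, hc, he⟩
    simp only [code] at he
    exact k1 a ha b hb c hc (σ.injective (Fin.ext (by omega))) (σ.injective (Fin.ext (by omega)))
      (σ.injective (Fin.ext (by omega))) (σ.injective (Fin.ext (by omega)))
  · rintro _ _ ⟨a, ha, rfl⟩ ⟨b, hb, rfl⟩ ⟨c, hc, he⟩
    simp only [code] at he
    exact k2 a ha b hb c hc (σ.injective (Fin.ext (by omega))) (σ.injective (Fin.ext (by omega)))
      (σ.injective (Fin.ext (by omega))) (σ.injective (Fin.ext (by omega)))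
  · rintro _ _ ⟨a, ha, rfl⟩ ⟨b, hb, rfl⟩ ⟨c, hc, he⟩
    simp only [code] at he
    exact k3 a ha b hb c hc (σ.injective (Fin.ext (by omega))) (σ.injective (Fin.ext (by omega)))
      (σ.injective (Fin.ext (by omega))) (σ.injective (Fin.ext (by omega)))
  · intro n hn
    have hn' := hn
    rw [ok, decide_eq_true_eq] at hn'
    have hlt := hn'.1
    let w : Fin 4 → Fin 6 := fun i => σ.symm (dec n i)
    have hw : Function.Injective w := fun _ _ h => dec_inj hn (σ.symm.injective h)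
    obtain ⟨i, hiE⟩ := h w hw (by
      intro i he
      apply dec_ne hn i
      funext j
      have h1 := congrArg σ (congrFun he j)
      simp only [w, Equiv.apply_symm_apply] at h1
      rw [h1]
      simp only [rot, rev]
      rw [hσ]
      exact rev_word (j + i))
    have h2 : ∃ w ∈ E, code (fun i => σ (w i)) = code (rot i (dec n)) := by
      refine ⟨_, hiE, ?_⟩
      congr 1
      funext j
      simp [rot, w]
    have hcd := code_dec hlt
    have e : code (rot i (dec n)) = n ∨ code (rot i (dec n)) = n % 216 * 6 + n / 216 ∨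
        code (rot i (dec n)) = n % 36 * 36 + n / 36 ∨
        code (rot i (dec n)) = n % 6 * 216 + n / 6 := by
      exact code_rot_dec hlt i
    rcases e with e | e | e | e
    · exact Or.inl (e ▸ h2)
    · exact Or.inr (Or.inl (e ▸ h2))
    · exact Or.inr (Or.inr (Or.inl (e ▸ h2)))
    · exact Or.inr (Or.inr (Or.inr (e ▸ h2)))
  · refine ⟨v, hv, ?_⟩
    have : (fun i => σ (v i)) = ![0, 3, 2, 1] := funext hσ
    rw [this]
    rfl

theorem bd_of (h : ∀ S : ℕ → Prop, ¬ Sys S) : Bd 6 88 := by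
  intro E hE hi
  by_contra hc
  obtain ⟨S, hS⟩ := sys_of E hE hi (by omega)
  exact h S hS

end Pool.Agent.CF81
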