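import Pool.Agent.CF81.T0
import Pool.Agent.CF81.T1
import Pool.Agent.CF81.T2

/-!
# CF81/T: data for six letters
-/

set_option autoImplicit false
set_option maxRecDepth 100000

namespace Pool.Agent.CF81.Dat

/-- The clauses. -/
def t : WS.Tree :=
 n (n (n (n (n (n tx0 tx1) (n tx2 tx3)) (n (n tx4 tx5) (n tx6 tx7))) (n (n (n tx8 tx9) (n tx10 tx11)) (n (n tx12 tx13) (n tx14 tx15)))) (n (n (n (n tx16 tx17) (n tx18 tx19)) (n (n tx20 tx21) (n tx22 tx23))) (n (n (n tx24 tx25) (n tx26 tx27)) (n (n tx28 tx29) (n tx30 tx31))))) (n (n (n (n (n tx32 tx33) (n tx34 tx35)) (n (n tx36 tx37) (n tx38 tx39))) (n (n (n tx40 tx41) (n tx42 tx43)) (n (n tx44 tx45) (n tx46 tx47)))) (n (n (n (n tx48 tx49) (n tx50 tx51)) (n (n tx52 tx53) (n tx54 tx55))) (n (n (n tx56 tx57) (n tx58 tx59)) (n (n tx60 tx61) (n tx62 tx63)))))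

end Pool.Agent.CF81.Dat
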