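import Pool.Agent.CF81.Sat

/-!
# CF81/V: data for six letters
-/

set_option autoImplicit false
set_option maxRecDepth 100000

namespace Pool.Agent.CF81.Dat

abbrev l := WS.Tree.leaf
abbrev n := WS.Tree.node

/-- The variables. -/
def v : WS.Tree :=
 n (n (n (n (n (n (n (n (n (n (l 1525) (l 1062)) (n (l 844) (l 0))) (n (n (l 1225) (l 1405)) (n (l 1428) (l 0)))) (n (n (n (l 420) (l 1348)) (n (l 1563) (l 0))) (n (n (l 983) (l 0)) (n (l 1373) (l 0))))) (n (n (n (n (l 945) (l 140)) (n (l 1131) (l 0))) (n (n (l 941) (l 0)) (n (l 1674) (l 0)))) (n (n (n (l 1155) (l 1576)) (n (l 1379) (l 0))) (n (n (l 834) (l 0)) (n (l 1666) (l 0)))))) (n (n (n (n (n (l 1546) (l 106)) (n (l 594) (l 0))) (n (n (l 206) (l 1605)) (n (l 1214) (l 0)))) (n (n (n (l 350) (l 101)) (n (l 1607) (l 0))) (n (n (l 659) (l 0)) (n (l 1329) (l 0))))) (n (n (n (n (l 62) (l 1753)) (n (l 1457) (l 0))) (n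 (n (l 167) (l 0)) (n (l 1485) (l 0)))) (n (n (n (l 1541) (l 1693)) (n (l 1678) (l 0))) (n (n (l 581) (l 0)) (n (l 1807) (l 0))))))) (n (n (n (n (n (n (l 1538) (l 955)) (n (l 716) (l 0))) (n (n (l 1088) (l 1420)) (n (l 1443) (l 0)))) (n (n (n (l 498) (l 1691)) (n (l 315) (l 0))) (n (n (l 713) (l 0)) (n (l 1201) (l 0))))) (n (n (n (n (l 363) (l 1491)) (n (l 682) (l 0))) (n (n (l 1244) (l 0)) (n (l 1349) (l 0)))) (n (n (n (l 969) (l 1694)) (n (l 1305) (l 0))) (n (n (l 1189) (l 0)) (n (l 1057) (l 0)))))) (n (n (n (n (n (l 1781) (l 1393)) (n (l 1502) (l 0))) (n (n (l 291) (l 1632)) (n (l 967) (l 0)))) (n (n (n (l 354) (l 1171)) (n (l 689) (l 0))) (n (n (l 803) (l 0)) (n (l 1336) (l 0))))) (n (n (n (n (l 1047) (l 1002)) (n (l 248) (l 0))) (n (n (l 1776) (l 0)) (n (l 318) (l 0)))) (n (n (n (l 358) (l 1463)) (n (l 1738) (l 0))) (n (n (l 200) (l 0)) (n (l 1704) (l 0))))))))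 (n (n (n (n (n (n (n (l 1773) (l 196)) (n (l 725) (l 0))) (n (n (l 443) (l 121)) (n (l 1761) (l 0)))) (n (n (n (l 622) (l 1754)) (n (l 912) (l 0))) (n (n (l 1544) (l 0)) (n (l 1455) (l 0))))) (n (n (n (n (l 1808) (l 175)) (n (l 250) (l 0))) (n (n (l 718) (l 0)) (n (l 1716) (l 0)))) (n (n (n (l 1799) (l 1309)) (n (l 1701) (l 0))) (n (n (l 665) (l 0)) (n (l 1622) (l 0)))))) (n (n (n (n (n (l 1793) (l 1610)) (n (l 311) (l 0))) (n (n (l 356) (l 1386)) (n (l 1703) (l 0)))) (n (n (n (l 751) (l 1328)) (n (l 1361) (l 0))) (n (n (l 903) (l 0)) (n (l 69) (l 0))))) (n (n (n (n (l 1797) (l 164)) (n (l 677) (l 0))) (n (n (l 822) (l 0)) (n (l 1730) (l 0)))) (n (n (n (l 1532) (l 1390)) (n (l 1415) (l 0))) (n (n (l 1196) (l 0)) (n (l 1602) (l 0))))))) (n (n (n (n (n (n (l 1522) (l 116)) (n (l 1362) (l 0))) (n (n (l 1802) (l 1692)) (n (l 1612) (l 0)))) (n (n (n (l 838) (l 1315))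 (n (l 1441) (l 0))) (n (n (l 321) (l 0)) (n (l 1670) (l 0))))) (n (n (n (n (l 1792) (l 1243)) (n (l 824) (l 0))) (n (n (l 190) (l 0)) (n (l 1672) (l 0)))) (n (n (n (l 442) (l 1696)) (n (l 232) (l 0))) (n (n (l 233) (l 0)) (n (l 1337) (l 0)))))) (n (n (n (n (n (l 1521) (l 139)) (n (l 177) (l 0))) (n (n (l 81) (l 0)) (n (l 1637) (l 0)))) (n (n (n (l 875) (l 1759)) (n (l 1500) (l 0))) (n (n (l 95) (l 0)) (n (l 1213) (l 0))))) (n (n (n (n (l 455) (l 679)) (n (l 310) (l 0))) (n (n (l 942) (l 0)) (n (l 937) (l 0)))) (n (n (n (l 416) (l 1459)) (n (l 1624) (l 0))) (n (n (l 696) (l 0)) (n (l 133) (l 0))))))))) (n (n (n (n (n (n (n (n (l 1550) (l 161)) (n (l 1358) (l 0))) (n (n (l 744) (l 1567)) (n (l 1613) (l 0)))) (n (n (n (l 399) (l 457)) (n (l 249) (l 0))) (n (n (l 408) (l 0)) (n (l 1449) (l 0))))) (n (n (n (n (l 1534) (l 205)) (n (l 188) (l 0))) (n (n (l 550) (l 0))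 (n (l 1406) (l 0)))) (n (n (n (l 341) (l 1729)) (n (l 1699) (l 0))) (n (n (l 459) (l 0)) (n (l 1503) (l 0)))))) (n (n (n (n (n (l 1771) (l 1334)) (n (l 954) (l 0))) (n (n (l 1153) (l 1316)) (n (l 1673) (l 0)))) (n (n (n (l 1142) (l 1105)) (n (l 1635) (l 0))) (n (n (l 340) (l 0)) (n (l 1448) (l 0))))) (n (n (n (n (l 1551) (l 1687)) (n (l 686) (l 0))) (n (n (l 1537) (l 0)) (n (l 1620) (l 0)))) (n (n (n (l 1140) (l 1783)) (n (l 1306) (l 0))) (n (n (l 1118) (l 0)) (n (l 1200) (l 0))))))) (n (n (n (n (n (n (l 1780) (l 1492)) (n (l 293) (l 0))) (n (n (l 1786) (l 1580)) (n (l 1744) (l 0)))) (n (n (n (l 873) (l 1319)) (n (l 800) (l 0))) (n (n (l 797) (l 0)) (n (l 1623) (l 0))))) (n (n (n (n (l 502) (l 1594)) (n (l 1059) (l 0))) (n (n (l 486) (l 0)) (n (l 137) (l 0)))) (n (n (n (l 809) (l 1436)) (n (l 1414) (l 0))) (n (n (l 1176) (l 0)) (n (l 119) (l 0)))))) (n (n (n (n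 (n (l 1779) (l 1711)) (n (l 1679) (l 0))) (n (n (l 1517) (l 0)) (n (l 1412) (l 0)))) (n (n (n (l 1531) (l 1645)) (n (l 1399) (l 0))) (n (n (l 1788) (l 0)) (n (l 1484) (l 0))))) (n (n (n (n (l 1099) (l 564)) (n (l 1369) (l 0))) (n (n (l 1775) (l 0)) (n (l 1740) (l 0)))) (n (n (n (l 621) (l 1417)) (n (l 1617) (l 0))) (n (n (l 155) (l 0)) (n (l 637) (l 0)))))))) (n (n (n (n (n (n (n (l 1553) (l 853)) (n (l 585) (l 0))) (n (n (l 362) (l 1649)) (n (l 545) (l 0)))) (n (n (n (l 1102) (l 1003)) (n (l 1564) (l 0))) (n (n (l 1795) (l 0)) (n (l 1709) (l 0))))) (n (n (n (n (l 1227) (l 1446)) (n (l 1398) (l 0))) (n (n (l 336) (l 0)) (n (l 1452) (l 0)))) (n (n (n (l 616) (l 1322)) (n (l 1365) (l 0))) (n (n (l 238) (l 0)) (n (l 841) (l 0)))))) (n (n (n (n (n (l 1524) (l 577)) (n (l 328) (l 0))) (n (n (l 53) (l 1347)) (n (l 1458) (l 0)))) (n (n (n (l 883) (l 1242)) (n (l 915) (l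 0))) (n (n (l 551) (l 0)) (n (l 1311) (l 0))))) (n (n (n (n (l 1089) (l 378)) (n (l 245) (l 0))) (n (n (l 466) (l 0)) (n (l 823) (l 0)))) (n (n (n (l 832) (l 1433)) (n (l 1402) (l 0))) (n (n (l 473) (l 0)) (n (l 1136) (l 0))))))) (n (n (n (n (n (n (l 1787) (l 661)) (n (l 609) (l 0))) (n (n (l 375) (l 1304)) (n (l 1330) (l 0)))) (n (n (n (l 852) (l 1498)) (n (l 1614) (l 0))) (n (n (l 1053) (l 0)) (n (l 1445) (l 0))))) (n (n (n (n (l 1523) (l 1318)) (n (l 1710) (l 0))) (n (n (l 322) (l 0)) (n (l 1630) (l 0)))) (n (n (n (l 1785) (l 1321)) (n (l 1352) (l 0))) (n (n (l 599) (l 0)) (n (l 1752) (l 0)))))) (n (n (n (n (n (l 1801) (l 1592)) (n (l 1120) (l 0))) (n (n (l 840) (l 0)) (n (l 1728) (l 0)))) (n (n (n (l 454) (l 1434)) (n (l 1713) (l 0))) (n (n (l 105) (l 0)) (n (l 193) (l 0))))) (n (n (n (n (l 377) (l 1410)) (n (l 243) (l 0))) (n (n (l 418) (l 0)) (n (l 1588) (l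 0)))) (n (n (n (l 1516) (l 1435)) (n (l 1619) (l 0))) (n (n (l 1232) (l 0)) (n (l 989) (l 0)))))))))) (n (n (n (n (n (n (n (n (n (l 1809) (l 730)) (n (l 461) (l 0))) (n (n (l 451) (l 1586)) (n (l 1478) (l 0)))) (n (n (n (l 82) (l 1093)) (n (l 231) (l 0))) (n (n (l 353) (l 0)) (n (l 1581) (l 0))))) (n (n (n (n (l 1782) (l 1397)) (n (l 1052) (l 0))) (n (n (l 365) (l 0)) (n (l 1479) (l 0)))) (n (n (n (l 1774) (l 159)) (n (l 1366) (l 0))) (n (n (l 897) (l 0)) (n (l 1063) (l 0)))))) (n (n (n (n (n (l 1513) (l 1409)) (n (l 317) (l 0))) (n (n (l 634) (l 1593)) (n (l 1480) (l 0)))) (n (n (n (l 383) (l 565)) (n (l 152) (l 0))) (n (n (l 984) (l 0)) (n (l 1664) (l 0))))) (n (n (n (n (l 1545) (l 1128)) (n (l 1477) (l 0))) (n (n (l 872) (l 0)) (n (l 793) (l 0)))) (n (n (n (l 708) (l 1515)) (n (l 1371) (l 0))) (n (n (l 606) (l 0)) (n (l 1236) (l 0))))))) (n (n (n (n (n (n (l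 1811) (l 877)) (n (l 1064) (l 0))) (n (n (l 1528) (l 1663)) (n (l 1170) (l 0)))) (n (n (n (l 372) (l 91)) (n (l 932) (l 0))) (n (n (l 239) (l 0)) (n (l 1392) (l 0))))) (n (n (n (n (l 492) (l 1583)) (n (l 411) (l 0))) (n (n (l 794) (l 0)) (n (l 1736) (l 0)))) (n (n (n (l 390) (l 1501)) (n (l 292) (l 0))) (n (n (l 52) (l 0)) (n (l 1451) (l 0)))))) (n (n (n (n (n (l 1804) (l 630)) (n (l 918) (l 0))) (n (n (l 393) (l 0)) (n (l 1364) (l 0)))) (n (n (n (l 1162) (l 1577)) (n (l 1486) (l 0))) (n (n (l 896) (l 0)) (n (l 1688) (l 0))))) (n (n (n (n (l 1543) (l 673)) (n (l 688) (l 0))) (n (n (l 1095) (l 0)) (n (l 1488) (l 0)))) (n (n (n (l 881) (l 1387)) (n (l 1571) (l 0))) (n (n (l 917) (l 0)) (n (l 1750) (l 0)))))))) (n (n (n (n (n (n (n (l 1542) (l 118)) (n (l 836) (l 0))) (n (n (l 959) (l 1648)) (n (l 1354) (l 0)))) (n (n (n (l 491) (l 1004)) (n (l 546) (l 0))) (n (n (l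 1046) (l 0)) (n (l 1655) (l 0))))) (n (n (n (n (l 615) (l 1667)) (n (l 1174) (l 0))) (n (n (l 1138) (l 0)) (n (l 1650) (l 0)))) (n (n (n (l 1106) (l 195)) (n (l 1313) (l 0))) (n (n (l 973) (l 0)) (n (l 1408) (l 0)))))) (n (n (n (n (n (l 1794) (l 103)) (n (l 587) (l 0))) (n (n (l 1527) (l 1374)) (n (l 1636) (l 0)))) (n (n (n (l 613) (l 1489)) (n (l 978) (l 0))) (n (n (l 312) (l 0)) (n (l 1587) (l 0))))) (n (n (n (n (l 1803) (l 1747)) (n (l 1737) (l 0))) (n (n (l 884) (l 0)) (n (l 631) (l 0)))) (n (n (n (l 398) (l 1460)) (n (l 1442) (l 0))) (n (n (l 674) (l 0)) (n (l 721) (l 0))))))) (n (n (n (n (n (n (l 1796) (l 1653)) (n (l 153) (l 0))) (n (n (l 639) (l 1335)) (n (l 1401) (l 0)))) (n (n (n (l 750) (l 570)) (n (l 1356) (l 0))) (n (n (l 392) (l 0)) (n (l 202) (l 0))))) (n (n (n (n (l 1539) (l 68)) (n (l 1050) (l 0))) (n (n (l 658) (l 0)) (n (l 1606) (l 0)))) (n (n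 (n (l 1514) (l 1421)) (n (l 1758) (l 0))) (n (n (l 1190) (l 0)) (n (l 1585) (l 0)))))) (n (n (n (n (n (l 495) (l 1749)) (n (l 980) (l 0))) (n (n (l 1806) (l 0)) (n (l 124) (l 0)))) (n (n (n (l 854) (l 1438)) (n (l 1660) (l 0))) (n (n (l 724) (l 0)) (n (l 1372) (l 0))))) (n (n (n (n (l 579) (l 1453)) (n (l 977) (l 0))) (n (n (l 472) (l 0)) (n (l 731) (l 0)))) (n (n (n (l 56) (l 1579)) (n (l 1327) (l 0))) (n (n (l 749) (l 0)) (n (l 199) (l 0))))))))) (n (n (n (n (n (n (n (n (l 1810) (l 895)) (n (l 189) (l 0))) (n (n (l 1226) (l 1718)) (n (l 1700) (l 0)))) (n (n (n (l 636) (l 1573)) (n (l 1132) (l 0))) (n (n (l 1518) (l 0)) (n (l 1659) (l 0))))) (n (n (n (n (l 1772) (l 1595)) (n (l 176) (l 0))) (n (n (l 923) (l 0)) (n (l 1355) (l 0)))) (n (n (n (l 804) (l 1471)) (n (l 1470) (l 0))) (n (n (l 701) (l 0)) (n (l 829) (l 0)))))) (n (n (n (n (n (l 1536) (l 1668)) (n (l 1134)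 (l 0))) (n (n (l 423) (l 1675)) (n (l 1359) (l 0)))) (n (n (n (l 380) (l 1430)) (n (l 1686) (l 0))) (n (n (l 242) (l 0)) (n (l 1344) (l 0))))) (n (n (n (n (l 1143) (l 163)) (n (l 329) (l 0))) (n (n (l 1520) (l 0)) (n (l 1631) (l 0)))) (n (n (n (l 710) (l 1565)) (n (l 582) (l 0))) (n (n (l 465) (l 0)) (n (l 1548) (l 0))))))) (n (n (n (n (n (n (l 1552) (l 1350)) (n (l 974) (l 0))) (n (n (l 441) (l 1570)) (n (l 1377) (l 0)))) (n (n (n (l 59) (l 1177)) (n (l 1715) (l 0))) (n (n (l 930) (l 0)) (n (l 1629) (l 0))))) (n (n (n (n (l 947) (l 1651)) (n (l 700) (l 0))) (n (n (l 879) (l 0)) (n (l 134) (l 0)))) (n (n (n (l 1790) (l 99)) (n (l 1616) (l 0))) (n (n (l 933) (l 0)) (n (l 1204) (l 0)))))) (n (n (n (n (n (l 1535) (l 142)) (n (l 1158) (l 0))) (n (n (l 830) (l 0)) (n (l 1494) (l 0)))) (n (n (n (l 497) (l 97)) (n (l 805) (l 0))) (n (n (l 745) (l 0)) (n (l 1706) (l 0)))))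 (n (n (n (n (l 1090) (l 1496)) (n (l 412) (l 0))) (n (n (l 1530) (l 0)) (n (l 1627) (l 0)))) (n (n (n (l 1239) (l 1391)) (n (l 680) (l 0))) (n (n (l 463) (l 0)) (n (l 1395) (l 0)))))))) (n (n (n (n (n (n (n (l 1529) (l 1472)) (n (l 1156) (l 0))) (n (n (l 714) (l 1721)) (n (l 1574) (l 0)))) (n (n (n (l 501) (l 569)) (n (l 1192) (l 0))) (n (n (l 94) (l 0)) (n (l 1237) (l 0))))) (n (n (n (n (l 966) (l 920)) (n (l 798) (l 0))) (n (n (l 1119) (l 0)) (n (l 1731) (l 0)))) (n (n (n (l 1045) (l 1717)) (n (l 1735) (l 0))) (n (n (l 618) (l 0)) (n (l 70) (l 0)))))) (n (n (n (n (n (l 1549) (l 1608)) (n (l 1230) (l 0))) (n (n (l 1778) (l 1644)) (n (l 1323) (l 0)))) (n (n (n (l 1161) (l 571)) (n (l 1194) (l 0))) (n (n (l 1100) (l 0)) (n (l 1473) (l 0))))) (n (n (n (n (l 58) (l 607)) (n (l 1656) (l 0))) (n (n (l 1107) (l 0)) (n (l 1569) (l 0)))) (n (n (n (l 754) (l 1312)) (n (l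 125) (l 0))) (n (n (l 326) (l 0)) (n (l 65) (l 0))))))) (n (n (n (n (n (n (l 1800) (l 1742)) (n (l 1179) (l 0))) (n (n (l 1789) (l 1562)) (n (l 1743) (l 0)))) (n (n (n (l 422) (l 595)) (n (l 1378) (l 0))) (n (n (l 400) (l 0)) (n (l 985) (l 0))))) (n (n (n (n (l 490) (l 1756)) (n (l 664) (l 0))) (n (n (l 1198) (l 0)) (n (l 1746) (l 0)))) (n (n (n (l 83) (l 1307)) (n (l 1760) (l 0))) (n (n (l 414) (l 0)) (n (l 1325) (l 0)))))) (n (n (n (n (n (l 887) (l 1056)) (n (l 544) (l 0))) (n (n (l 1212) (l 0)) (n (l 1416) (l 0)))) (n (n (n (l 348) (l 1495)) (n (l 902) (l 0))) (n (n (l 1096) (l 0)) (n (l 157) (l 0))))) (n (n (n (n (l 939) (l 574)) (n (l 905) (l 0))) (n (n (l 1233) (l 0)) (n (l 1657) (l 0)))) (n (n (n (l 63) (l 1429)) (n (l 1707) (l 0))) (n (n (l 207) (l 0)) (n (l 1482) (l 0))))))))))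

end Pool.Agent.CF81.Dat
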